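import Pool.Agent.X185.SG.Top
set_option autoImplicit false
set_option linter.all false

open Filter Topology

noncomputable section

namespace Pool.Agent.X185.SG

theorem exists_K (R : ℝ) : ∃ K : ℕ, R ≤ ∑ k ∈ Finset.range K, 1 / ((k : ℝ) + 3) := by
  have h := Real.tendsto_sum_range_one_div_nat_succ_atTop
  obtain ⟨n, hn1, hn2⟩ := (h.eventually_ge_atTop (R + 3 / 2)).and (eventually_ge_atTop 2) |>.exists
  obtain ⟨K, rfl⟩ : ∃ K, n = 2 + K := ⟨n - 2, by omega⟩
  refine ⟨K, ?_⟩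
  rw [Finset.sum_range_add] at hn1
  have e1 : ∑ i ∈ Finset.range 2, 1 / ((i : ℝ) + 1) = 3 / 2 := by
    rw [Finset.sum_range_succ, Finset.sum_range_one]; norm_num
  have e2 : ∑ x ∈ Finset.range K, 1 / (((2 + x : ℕ) : ℝ) + 1) =
      ∑ k ∈ Finset.range K, 1 / ((k : ℝ) + 3) := by
    apply Finset.sum_congr rfl
    intro k _
    congr 1
    push_cast
    ring
  rw [e1, e2] at hn1
  linarith

theorem main : ∃ δ0 : ℝ, 0 < δ0 ∧ ∀ δ : ℝ, 0 < δ → δ ≤ δ0 →
    IsConnected (closure (sigmaC (cc δ) '' {n | 0 < n})) := by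
  have hl := logL_pos
  have hL0 : (0 : ℝ) < L := by rw [L_val]; norm_num
  obtain ⟨K, hK⟩ := exists_K (24 / 5 * (18 * Real.log (L : ℝ)))
  have hln2 : 0 < Real.log 2 := Real.log_pos (by norm_num)
  refine ⟨min (1 / (6 * Real.log (L : ℝ))) (Real.log 2 / (((K : ℝ) + 3) * Real.log (L : ℝ))),
    lt_min (by positivity) (by positivity), ?_⟩
  intro δ hδ hδ0
  have h1 : δ ≤ 1 / (6 * Real.log (L : ℝ)) := hδ0.trans (min_le_left _ _)
  have h2 : δ ≤ Real.log 2 / (((K : ℝ) + 3) * Real.log (L : ℝ)) := hδ0.trans (min_le_right _ _)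
  rw [le_div_iff₀ (by positivity)] at h1 h2
  have hLδ : 5 / 6 ≤ (L : ℝ) ^ (-δ) := by
    rw [Real.rpow_def_of_pos hL0]
    have := Real.add_one_le_exp (Real.log (L : ℝ) * -δ)
    linarith
  have hmm : ∀ k ∈ Finset.range K, 1 / ((k : ℝ) + 3) / (18 * Real.log (L : ℝ)) ≤
      mm δ (L ^ k * L ^ 2) := by
    intro k hk
    rw [Finset.mem_range] at hk
    unfold mm
    have e1 : ((L * (L ^ k * L ^ 2) : ℕ) : ℝ) = (L : ℝ) ^ (k + 3) := by push_cast; ring
    have e2 : Real.log ((L : ℝ) ^ (k + 3)) = ((k : ℝ) + 3) * Real.log (L : ℝ) := by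
      rw [Real.log_pow]; push_cast; ring
    rw [e1, e2]
    have h3 : (1 : ℝ) / 2 ≤ ((L : ℝ) ^ (k + 3)) ^ (-δ) := by
      rw [Real.rpow_def_of_pos (by positivity), e2]
      have h4 : Real.exp (-Real.log 2) = 1 / 2 := by
        rw [Real.exp_neg, Real.exp_log (by norm_num)]; norm_num
      rw [← h4]
      apply Real.exp_le_exp.mpr
      have hkK : (k : ℝ) + 3 ≤ (K : ℝ) + 3 := by
        have : (k : ℝ) ≤ K := by exact_mod_cast hk.le
        linarith
      have h5 : ((k : ℝ) + 3) * Real.log (L : ℝ) * δ ≤ ((K : ℝ) + 3) * Real.log (L : ℝ) * δ := by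
        apply mul_le_mul_of_nonneg_right _ hδ.le
        exact mul_le_mul_of_nonneg_right hkK hl.le
      linarith
    have h6 : (0 : ℝ) < ((k : ℝ) + 3) * Real.log (L : ℝ) := by positivity
    calc 1 / ((k : ℝ) + 3) / (18 * Real.log (L : ℝ)) =
        (1 / 2) / (9 * (((k : ℝ) + 3) * Real.log (L : ℝ))) := by field_simp; norm_num
      _ ≤ _ := by
        apply div_le_div_of_nonneg_right h3 (by positivity)
  have hK' : ∃ K, 24 / 5 ≤ ∑ k ∈ Finset.range K, mm δ (L ^ k * L ^ 2) := by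
    refine ⟨K, ?_⟩
    have h3 := Finset.sum_le_sum hmm
    rw [← Finset.sum_div] at h3
    refine le_trans ?_ h3
    rw [le_div_iff₀ (by positivity)]
    exact hK
  apply conn
  · show -(1 + δ) < -1
    linarith
  · intro p hp k ε hε
    exact H_approx δ hδ.le hLδ hK' p hp k ε hε

end Pool.Agent.X185.SG
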