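import Pool.Agent.X185.SG.Chain
set_option autoImplicit false
set_option linter.all false

open Filter Topology

noncomputable section

namespace Pool.Agent.X185.SG

/-- the divisor function `σ_c` -/
def sigmaC (c : ℂ) (n : ℕ) : ℂ := ∑ d ∈ n.divisors, (d : ℂ) ^ c

/-- the power function as an arithmetic function -/
def powA (c : ℂ) : ArithmeticFunction ℂ := ⟨fun n => if n = 0 then 0 else (n : ℂ) ^ c, by simp⟩

theorem powA_apply (c : ℂ) (n : ℕ) (hn : n ≠ 0) : powA c n = (n : ℂ) ^ c := by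
  show (if n = 0 then 0 else (n : ℂ) ^ c) = _
  rw [if_neg hn]

theorem powA_mult (c : ℂ) : (powA c).IsMultiplicative := by
  rw [ArithmeticFunction.IsMultiplicative.iff_ne_zero]
  refine ⟨by rw [powA_apply c 1 one_ne_zero]; simp, ?_⟩
  intro m n hm hn _
  rw [powA_apply c _ (mul_ne_zero hm hn), powA_apply c m hm, powA_apply c n hn, Nat.cast_mul,
    Complex.natCast_mul_natCast_cpow]

theorem sigmaC_eq (c : ℂ) (n : ℕ) : sigmaC c n = (powA c * (ArithmeticFunction.zeta : ArithmeticFunction ℂ)) n := by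
  rw [ArithmeticFunction.coe_mul_zeta_apply]
  unfold sigmaC
  apply Finset.sum_congr rfl
  intro d hd
  rw [powA_apply c d (Nat.pos_of_mem_divisors hd).ne']

theorem sigmaC_mul (c : ℂ) (m n : ℕ) (h : Nat.Coprime m n) :
    sigmaC c (m * n) = sigmaC c m * sigmaC c n := by
  rw [sigmaC_eq, sigmaC_eq, sigmaC_eq]
  exact ((powA_mult c).mul ArithmeticFunction.isMultiplicative_zeta.natCast).map_mul_of_coprime h

theorem sigmaC_one (c : ℂ) : sigmaC c 1 = 1 := by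
  unfold sigmaC; simp

theorem pow_cpow (c : ℂ) (p i : ℕ) : (((p ^ i : ℕ) : ℂ)) ^ c = ((p : ℂ) ^ c) ^ i := by
  induction i with
  | zero => simp
  | succ i ih =>
    rw [pow_succ, Nat.cast_mul, Complex.natCast_mul_natCast_cpow, ih, pow_succ]

theorem sigmaC_prime_pow (c : ℂ) (p k : ℕ) (hp : p.Prime) :
    (1 - (p : ℂ) ^ c) * sigmaC c (p ^ k) = 1 - ((p : ℂ) ^ c) ^ (k + 1) := by
  unfold sigmaC
  rw [Nat.sum_divisors_prime_pow hp]
  simp_rw [pow_cpow]
  exact mul_neg_geom_sum _ _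

theorem sigmaC_prod (c : ℂ) (S : Finset ℕ) (hS : ∀ q ∈ S, q.Prime) :
    sigmaC c (∏ q ∈ S, q) = ∏ q ∈ S, (1 + (q : ℂ) ^ c) := by
  induction S using Finset.induction_on with
  | empty => simp [sigmaC_one]
  | insert a S ha ih =>
    have hS' : ∀ q ∈ S, q.Prime := fun q hq => hS q (Finset.mem_insert_of_mem hq)
    have hap := hS a (Finset.mem_insert_self _ _)
    rw [Finset.prod_insert ha, Finset.prod_insert ha, sigmaC_mul, ih hS']
    · congr 1
      unfold sigmaC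
      rw [Nat.Prime.sum_divisors hap]
      simp
      ring
    · rw [Nat.coprime_prod_right_iff]
      intro q hq
      rw [Nat.coprime_primes hap (hS' q hq)]
      rintro rfl
      exact ha hq

theorem H_approx (δ : ℝ) (hδ : 0 ≤ δ) (hLδ : 5 / 6 ≤ (L : ℝ) ^ (-δ))
    (hK : ∃ K, 24 / 5 ≤ ∑ k ∈ Finset.range K, mm δ (L ^ k * L ^ 2)) (p : ℕ) (hp : p.Prime) (k : ℕ)
    (ε : ℝ) (hε : 0 < ε) :
    ∃ n : ℕ, 0 < n ∧ (∀ q : ℕ, q.Prime → q ∣ n → p < q) ∧
      ‖sigmaC (cc δ) n * sigmaC (cc δ) (p ^ k) - sigmaC (cc δ) (p ^ (k + 1))‖ < ε := by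
  obtain ⟨a, ha⟩ : ∃ a : ℂ, a = (p : ℂ) ^ cc δ := ⟨_, rfl⟩
  have hp2 : (2 : ℝ) ≤ p := by exact_mod_cast hp.two_le
  have ha1 : ‖a‖ ≤ 1 / 2 := by
    rw [ha]
    exact (a_small δ hδ p hp.pos).trans (one_div_le_one_div_of_le (by norm_num) hp2)
  have hpw : ∀ j : ℕ, ‖a ^ (j + 1)‖ ≤ ‖a‖ := by
    intro j
    rw [norm_pow, pow_succ]
    have : ‖a‖ ^ j ≤ 1 := pow_le_one₀ (norm_nonneg _) (by linarith)
    nlinarith [norm_nonneg a]
  have hne : ∀ j : ℕ, 1 - a ^ (j + 1) ≠ 0 := by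
    intro j h
    have h1 : a ^ (j + 1) = 1 := (sub_eq_zero.mp h).symm
    have h2 := hpw j
    rw [h1, norm_one] at h2
    linarith
  have hlogb : ∀ j : ℕ, ‖Complex.log (1 - a ^ (j + 1))‖ ≤ 3 / 2 * ‖a‖ := by
    intro j
    have h1 := Complex.norm_log_one_add_half_le_self (z := -a ^ (j + 1))
      (by rw [norm_neg]; exact (hpw j).trans ha1)
    rw [norm_neg, ← sub_eq_add_neg] at h1
    have := hpw j
    linarith
  obtain ⟨z0, hz0⟩ : ∃ z0, z0 = Complex.log (1 - a ^ (k + 1 + 1)) - Complex.log (1 - a ^ (k + 1)) :=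
    ⟨_, rfl⟩
  have hz0n : ‖z0‖ ≤ 3 * ‖a‖ := by
    rw [hz0]
    have h1 := hlogb (k + 1)
    have h2 := hlogb k
    have h3 := norm_sub_le (Complex.log (1 - a ^ (k + 1 + 1))) (Complex.log (1 - a ^ (k + 1)))
    linarith
  have hexp : Complex.exp z0 * sigmaC (cc δ) (p ^ k) = sigmaC (cc δ) (p ^ (k + 1)) := by
    have h1 := sigmaC_prime_pow (cc δ) p k hp
    have h2 := sigmaC_prime_pow (cc δ) p (k + 1) hp
    rw [← ha] at h1 h2
    have h3 : (1 : ℂ) - a ≠ 0 := by have := hne 0; simpa using this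
    have h4 : sigmaC (cc δ) (p ^ k) = (1 - a ^ (k + 1)) / (1 - a) := by
      rw [eq_div_iff h3]; linear_combination h1
    have h5 : sigmaC (cc δ) (p ^ (k + 1)) = (1 - a ^ (k + 1 + 1)) / (1 - a) := by
      rw [eq_div_iff h3]; linear_combination h2
    rw [h4, h5, hz0, Complex.exp_sub, Complex.exp_log (hne (k + 1)), Complex.exp_log (hne k)]
    have := hne k
    field_simp
  obtain ⟨X, hX1, hX2, hinit⟩ : ∃ X : ℕ, L ^ 2 ≤ X ∧ p ≤ X ∧ (‖z0‖ ≤ 3 / 4 * mm δ X ∨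
      ∃ K, 16 / 5 * ‖z0‖ ≤ ∑ k ∈ Finset.range K, mm δ (L ^ k * X)) := by
    rcases le_total (L ^ 2) p with h | h
    · refine ⟨p, h, le_refl _, Or.inl ?_⟩
      have h1 := tt_le δ p h hLδ
      have h2 := mm_pos δ p hp.one_lt.le
      have h3 : ‖a‖ = (p : ℝ) ^ (-(1 + δ)) := by rw [ha]; exact a_norm δ p hp.pos
      unfold tt at h1
      rw [← h3] at h1
      linarith
    · refine ⟨L ^ 2, le_refl _, h, Or.inr ?_⟩
      obtain ⟨K, hK⟩ := hK
      refine ⟨K, ?_⟩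
      linarith
  -- continuity of exp
  obtain ⟨C, hC⟩ : ∃ C, C = ‖sigmaC (cc δ) (p ^ k)‖ + 1 := ⟨_, rfl⟩
  have hC0 : 0 < C := by rw [hC]; positivity
  obtain ⟨ε', hε', hcont⟩ := Metric.continuousAt_iff.mp
    (Complex.continuous_exp.continuousAt (x := z0)) (ε / C) (by positivity)
  obtain ⟨S, hS1, hS2⟩ := approx δ hδ hLδ X hX1 z0 hinit ε' hε'
  refine ⟨∏ q ∈ S, q, Finset.prod_pos fun q hq => (hS1 q hq).1.pos, ?_, ?_⟩
  · intro q hq hdvd
    rw [Prime.dvd_finset_prod_iff hq.prime] at hdvd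
    obtain ⟨r, hr, hqr⟩ := hdvd
    have := hS1 r hr
    rw [Nat.prime_dvd_prime_iff_eq hq this.1] at hqr
    omega
  · have hprod : Complex.exp (∑ q ∈ S, w δ q) = sigmaC (cc δ) (∏ q ∈ S, q) := by
      rw [Complex.exp_sum, sigmaC_prod _ _ fun q hq => (hS1 q hq).1]
      apply Finset.prod_congr rfl
      intro q hq
      unfold w
      apply Complex.exp_log
      intro h
      have h1 : (q : ℂ) ^ cc δ = -1 := by linear_combination h
      have h2 := a_small δ hδ q (hS1 q hq).1.pos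
      rw [h1, norm_neg, norm_one] at h2
      have h3 : (2 : ℝ) ≤ q := by exact_mod_cast (hS1 q hq).1.two_le
      rw [le_div_iff₀ (by linarith)] at h2
      linarith
    have h1 := hcont (x := ∑ q ∈ S, w δ q) (by rw [dist_eq_norm, norm_sub_rev]; exact hS2)
    rw [dist_eq_norm, hprod] at h1
    rw [← hexp, ← sub_mul, norm_mul]
    have h2 : ‖sigmaC (cc δ) (p ^ k)‖ < C := by rw [hC]; linarith
    calc ‖sigmaC (cc δ) (∏ q ∈ S, q) - Complex.exp z0‖ * ‖sigmaC (cc δ) (p ^ k)‖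
        ≤ (ε / C) * ‖sigmaC (cc δ) (p ^ k)‖ := mul_le_mul_of_nonneg_right h1.le (norm_nonneg _)
      _ < (ε / C) * C := mul_lt_mul_of_pos_left h2 (by positivity)
      _ = ε := by field_simp

end Pool.Agent.X185.SG
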