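import Mathlib
set_option autoImplicit false
set_option linter.all false

open Filter Topology

noncomputable section

namespace Pool.Agent.X185.SG

theorem cheb_ineq (y : ℝ) (hy : 240000 ≤ y) :
    y / 8 ≤ y * Real.log 2 - Real.log (y + 1) - 2 * Real.sqrt y * Real.log y -
      Real.log 4 * (y / 8) := by
  obtain ⟨s, hs⟩ : ∃ s, s = Real.sqrt (Real.sqrt y) := ⟨_, rfl⟩
  have hy0 : 0 ≤ y := by linarith
  have h1 : s ^ 2 = Real.sqrt y := by rw [hs, Real.sq_sqrt (Real.sqrt_nonneg _)]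
  have h2 : s ^ 4 = y := by
    have : s ^ 4 = (s ^ 2) ^ 2 := by ring
    rw [this, h1, Real.sq_sqrt hy0]
  have hs0 : 0 ≤ s := by rw [hs]; exact Real.sqrt_nonneg _
  have hs22 : 22 ≤ s := by
    by_contra hcon
    push Not at hcon
    have : s ^ 4 < 22 ^ 4 := pow_lt_pow_left₀ hcon hs0 (by norm_num)
    rw [h2] at this
    norm_num at this
    linarith
  have hspos : 0 < s := by linarith
  have h3 : Real.log y ≤ 4 * s := by
    rw [← h2, Real.log_pow]
    have := Real.log_le_sub_one_of_pos hspos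
    push_cast
    linarith
  have h4 : Real.log (y + 1) ≤ 2 * s ^ 2 + 2 := by
    have h5 : Real.log (y + 1) ≤ 2 * Real.log (s ^ 2 + 1) := by
      rw [← Real.log_rpow (by positivity)]
      apply Real.log_le_log (by linarith)
      have : (s ^ 2 + 1) ^ (2 : ℝ) = (s ^ 2 + 1) ^ 2 := by norm_cast
      rw [this, ← h2]
      nlinarith
    have h6 := Real.log_le_sub_one_of_pos (show 0 < s ^ 2 + 1 by positivity)
    nlinarith [sq_nonneg s]
  have h5 : 2 * Real.sqrt y * Real.log y ≤ 8 * s ^ 3 := by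
    rw [← h1]
    have : 2 * s ^ 2 * Real.log y ≤ 2 * s ^ 2 * (4 * s) :=
      mul_le_mul_of_nonneg_left h3 (by positivity)
    linarith
  have h6 : Real.log 4 = 2 * Real.log 2 := by
    rw [show (4 : ℝ) = 2 ^ 2 by norm_num, Real.log_pow]; push_cast; ring
  have h7 := Real.log_two_gt_d9
  rw [h6]
  have h8 : y * 0.6931 * (3 / 4) ≤ y * Real.log 2 * (3 / 4) := by
    apply mul_le_mul_of_nonneg_right _ (by norm_num)
    apply mul_le_mul_of_nonneg_left _ hy0
    linarith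
  have h9 : 8 * s ^ 3 + 2 * s ^ 2 + 2 ≤ y * 0.6931 * (3 / 4) - y / 8 := by
    rw [← h2]
    have e : s ^ 4 * 0.6931 * (3 / 4) - s ^ 4 / 8 = 0.394825 * s ^ 4 := by ring
    rw [e]
    have a1 : s ^ 4 ≥ 22 * s ^ 3 := by
      have : s ^ 4 = s * s ^ 3 := by ring
      rw [this]; exact mul_le_mul_of_nonneg_right hs22 (by positivity)
    have a2 : s ^ 3 ≥ 22 * s ^ 2 := by
      have : s ^ 3 = s * s ^ 2 := by ring
      rw [this]; exact mul_le_mul_of_nonneg_right hs22 (by positivity)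
    have a3 : s ^ 2 ≥ 22 * 22 := by nlinarith
    nlinarith
  nlinarith

theorem theta_diff (x : ℕ) (hx : 30000 ≤ x) :
    (x : ℝ) ≤ ∑ q ∈ (Finset.Ioc x (8 * x)).filter Nat.Prime, Real.log q := by
  have h1 := Chebyshev.theta_ge (8 * x)
  have h2 := Chebyshev.theta_le_log4_mul_x (x := (x : ℝ)) (Nat.cast_nonneg x)
  have h3 : Chebyshev.theta ((8 * x : ℕ) : ℝ) = Chebyshev.theta (x : ℝ) +
      ∑ q ∈ (Finset.Ioc x (8 * x)).filter Nat.Prime, Real.log q := by
    unfold Chebyshev.theta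
    rw [Nat.floor_natCast, Nat.floor_natCast]
    rw [← Finset.Ioc_union_Ioc_eq_Ioc (Nat.zero_le x) (show x ≤ 8 * x by omega),
      Finset.filter_union, Finset.sum_union]
    apply Finset.disjoint_filter_filter
    rw [Finset.disjoint_left]
    intro a ha hb
    rw [Finset.mem_Ioc] at ha hb
    omega
  have h4 := cheb_ineq ((8 * x : ℕ) : ℝ) (by
    have : (30000 : ℝ) ≤ x := by exact_mod_cast hx
    push_cast; linarith)
  rw [h3] at h1
  have h5 : (((8 * x : ℕ) : ℝ)) / 8 = x := by push_cast; ring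
  rw [h5] at h4
  linarith

/-- mass of the primes in `(x, 8x]` -/
theorem prime_mass (x : ℕ) (hx : 30000 ≤ x) (δ : ℝ) (hδ : 0 ≤ δ) :
    ((8 * x : ℕ) : ℝ) ^ (-δ) / (8 * Real.log ((8 * x : ℕ) : ℝ)) ≤
      ∑ q ∈ (Finset.Ioc x (8 * x)).filter Nat.Prime, (q : ℝ) ^ (-(1 + δ)) := by
  have h1 := theta_diff x hx
  obtain ⟨y, hy⟩ : ∃ y : ℝ, y = ((8 * x : ℕ) : ℝ) := ⟨_, rfl⟩
  have hx0 : (30000 : ℝ) ≤ x := by exact_mod_cast hx
  have hyx : y = 8 * x := by rw [hy]; push_cast; ring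
  have hy1 : 1 < y := by rw [hyx]; linarith
  have hlog : 0 < Real.log y := Real.log_pos hy1
  rw [← hy]
  have h2 : ∀ q ∈ (Finset.Ioc x (8 * x)).filter Nat.Prime, Real.log q * (y ^ (-(1 + δ)) / Real.log y) ≤
      (q : ℝ) ^ (-(1 + δ)) := by
    intro q hq
    rw [Finset.mem_filter, Finset.mem_Ioc] at hq
    have hq0 : (0 : ℝ) < q := by exact_mod_cast (by omega : 0 < q)
    have hqy : (q : ℝ) ≤ y := by rw [hy]; exact_mod_cast hq.1.2
    have h3 : Real.log q ≤ Real.log y := Real.log_le_log hq0 hqy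
    have h4 : y ^ (-(1 + δ)) ≤ (q : ℝ) ^ (-(1 + δ)) :=
      Real.rpow_le_rpow_of_nonpos hq0 hqy (by linarith)
    have h5 : 0 < y ^ (-(1 + δ)) := Real.rpow_pos_of_pos (by linarith) _
    calc Real.log q * (y ^ (-(1 + δ)) / Real.log y) = (Real.log q / Real.log y) * y ^ (-(1 + δ)) := by
          ring
      _ ≤ 1 * y ^ (-(1 + δ)) := by
          apply mul_le_mul_of_nonneg_right _ h5.le
          rw [div_le_one hlog]; exact h3
      _ ≤ (q : ℝ) ^ (-(1 + δ)) := by rw [one_mul]; exact h4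
  have h3 := Finset.sum_le_sum h2
  rw [← Finset.sum_mul] at h3
  refine le_trans ?_ h3
  have hyp : 0 < y := by linarith
  have h5 : 0 < y ^ (-(1 + δ)) / Real.log y := div_pos (Real.rpow_pos_of_pos hyp _) hlog
  refine le_trans ?_ (mul_le_mul_of_nonneg_right h1 h5.le)
  have e : y ^ (-(1 + δ)) = y ^ (-δ) / y := by
    rw [neg_add, Real.rpow_add hyp, Real.rpow_neg_one, mul_comm, div_eq_mul_inv]
  rw [e]
  have hxy : (x : ℝ) = y / 8 := by rw [hyx]; ring
  rw [hxy]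
  apply le_of_eq
  field_simp

/-- directions -/
theorem dir (τ : ℝ) (hτ : τ = Real.pi / (8 * Real.log 8)) (x : ℕ) (hx : 0 < x) (α : ℝ) :
    ∃ j : ℕ, j < 16 ∧ ∀ q : ℕ, 8 ^ j * x < q → q ≤ 8 ^ (j + 1) * x →
      Real.cos (Real.pi / 8) ≤ Real.cos (τ * Real.log q - α) := by
  have hpi := Real.pi_pos
  have hl8 : 0 < Real.log 8 := Real.log_pos (by norm_num)
  have hτ0 : 0 < τ := by rw [hτ]; positivity
  have hτ8 : τ * Real.log 8 = Real.pi / 8 := by rw [hτ]; field_simp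
  obtain ⟨β, hβ⟩ : ∃ β, β = (α - τ * Real.log x) / (Real.pi / 8) := ⟨_, rfl⟩
  have hα : α = τ * Real.log x + β * (Real.pi / 8) := by rw [hβ]; field_simp; ring
  obtain ⟨f, hf⟩ : ∃ f : ℤ, f = ⌊β⌋ := ⟨_, rfl⟩
  have hf1 : (f : ℝ) ≤ β := by rw [hf]; exact Int.floor_le β
  have hf2 : β < f + 1 := by rw [hf]; exact Int.lt_floor_add_one β
  obtain ⟨j, hj⟩ : ∃ j : ℕ, (j : ℤ) = f % 16 := ⟨(f % 16).toNat, by
    rw [Int.toNat_of_nonneg]; exact Int.emod_nonneg _ (by norm_num)⟩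
  have hj16 : j < 16 := by
    have := Int.emod_lt_of_pos f (show (0 : ℤ) < 16 by norm_num)
    omega
  obtain ⟨n, hn⟩ : ∃ n : ℤ, n = f / 16 := ⟨_, rfl⟩
  have hfn : f = 16 * n + j := by rw [hj, hn]; omega
  have hfr : (f : ℝ) = 16 * n + j := by rw [hfn]; push_cast; ring
  refine ⟨j, hj16, fun q h1 h2 => ?_⟩
  have hx0 : (0 : ℝ) < x := by exact_mod_cast hx
  have hq0 : (0 : ℝ) < q := by
    have : 0 < 8 ^ j * x := by positivity
    exact_mod_cast (this.trans h1)
  have g1 : (j : ℝ) * Real.log 8 + Real.log x ≤ Real.log q := by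
    rw [← Real.log_pow, ← Real.log_mul (by positivity) (by positivity)]
    apply Real.log_le_log (by positivity)
    exact_mod_cast h1.le
  have g2 : Real.log q ≤ ((j : ℝ) + 1) * Real.log 8 + Real.log x := by
    have : ((j : ℝ) + 1) = ((j + 1 : ℕ) : ℝ) := by push_cast; ring
    rw [this, ← Real.log_pow, ← Real.log_mul (by positivity) (by positivity)]
    apply Real.log_le_log hq0
    exact_mod_cast h2
  have g1' := mul_le_mul_of_nonneg_left g1 hτ0.le
  have g2' := mul_le_mul_of_nonneg_left g2 hτ0.le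
  have e1 : τ * ((j : ℝ) * Real.log 8 + Real.log x) = j * (Real.pi / 8) + τ * Real.log x := by
    rw [← hτ8]; ring
  have e2 : τ * (((j : ℝ) + 1) * Real.log 8 + Real.log x) =
      (j + 1) * (Real.pi / 8) + τ * Real.log x := by
    rw [← hτ8]; ring
  rw [e1] at g1'
  rw [e2] at g2'
  obtain ⟨ψ, hψ⟩ : ∃ ψ, ψ = τ * Real.log q - α + n * (2 * Real.pi) := ⟨_, rfl⟩
  have hcos : Real.cos (τ * Real.log q - α) = Real.cos ψ := by
    rw [hψ, Real.cos_add_int_mul_two_pi]
  rw [hcos]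
  have b1 : -(Real.pi / 8) ≤ ψ := by
    rw [hψ, hα]
    have : β * (Real.pi / 8) ≤ (16 * n + j + 1) * (Real.pi / 8) := by
      apply mul_le_mul_of_nonneg_right _ (by positivity)
      rw [hfr] at hf2; linarith
    nlinarith
  have b2 : ψ ≤ Real.pi / 8 := by
    rw [hψ, hα]
    have : (16 * n + j) * (Real.pi / 8) ≤ β * (Real.pi / 8) := by
      apply mul_le_mul_of_nonneg_right _ (by positivity)
      rw [hfr] at hf1; linarith
    nlinarith
  rw [← Real.cos_abs ψ]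
  apply Real.cos_le_cos_of_nonneg_of_le_pi (abs_nonneg _) (by linarith)
  exact abs_le.mpr ⟨b1, b2⟩

theorem cos_ge : 0.9 ≤ Real.cos (Real.pi / 8) := by
  rw [Real.cos_pi_div_eight]
  have h2 : (1.24 : ℝ) ≤ Real.sqrt 2 := by
    apply Real.le_sqrt_of_sq_le; norm_num
  have h3 : (1.8 : ℝ) ≤ Real.sqrt (2 + Real.sqrt 2) := by
    apply Real.le_sqrt_of_sq_le; norm_num; linarith
  linarith

end Pool.Agent.X185.SG
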