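import Pool.Agent.X185.SG.Greedy
import Pool.Agent.X185.SG.Mass
set_option autoImplicit false
set_option linter.all false

open Filter Topology

noncomputable section

namespace Pool.Agent.X185.SG

/-- the imaginary part of the exponent -/
def τ0 : ℝ := Real.pi / (8 * Real.log 8)

/-- the exponent `-1-δ+iτ` -/
def cc (δ : ℝ) : ℂ := ⟨-(1 + δ), τ0⟩

theorem a_norm (δ : ℝ) (q : ℕ) (hq : 0 < q) : ‖(q : ℂ) ^ cc δ‖ = (q : ℝ) ^ (-(1 + δ)) := by
  rw [Complex.norm_natCast_cpow_of_pos hq]; rfl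

theorem a_dir (δ : ℝ) (q : ℕ) (hq : 0 < q) (α : ℝ) :
    ((q : ℂ) ^ cc δ * (starRingEnd ℂ) (Complex.exp (α * Complex.I))).re =
      (q : ℝ) ^ (-(1 + δ)) * Real.cos (τ0 * Real.log q - α) := by
  have hq0 : (q : ℂ) ≠ 0 := by exact_mod_cast hq.ne'
  have hqr : (0 : ℝ) < q := by exact_mod_cast hq
  have e1 : (q : ℂ) ^ cc δ = (((q : ℝ) ^ (-(1 + δ)) : ℝ) : ℂ) *
      Complex.exp (((τ0 * Real.log q : ℝ) : ℂ) * Complex.I) := by
    rw [Complex.cpow_def_of_ne_zero hq0, Real.rpow_def_of_pos hqr, Complex.ofReal_exp,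
      ← Complex.exp_add]
    congr 1
    have hl : Complex.log (q : ℂ) = ((Real.log q : ℝ) : ℂ) := by
      rw [Complex.natCast_log]
    rw [hl]
    apply Complex.ext
    · simp only [cc, Complex.mul_re, Complex.add_re, Complex.mul_im, Complex.add_im,
        Complex.ofReal_re, Complex.ofReal_im, Complex.I_re, Complex.I_im]
      ring
    · simp only [cc, Complex.mul_re, Complex.add_re, Complex.mul_im, Complex.add_im,
        Complex.ofReal_re, Complex.ofReal_im, Complex.I_re, Complex.I_im]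
      ring
  have e2 : (starRingEnd ℂ) (Complex.exp (α * Complex.I)) = Complex.exp (((-α : ℝ) : ℂ) * Complex.I) := by
    rw [← Complex.exp_conj]
    congr 1
    simp
  rw [e1, e2, mul_assoc, ← Complex.exp_add, Complex.re_ofReal_mul]
  congr 1
  have e3 : ((τ0 * Real.log q : ℝ) : ℂ) * Complex.I + ((-α : ℝ) : ℂ) * Complex.I =
      ((τ0 * Real.log q - α : ℝ) : ℂ) * Complex.I := by push_cast; ring
  rw [e3, Complex.exp_ofReal_mul_I_re]

/-- logarithm of the Euler factor -/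
def w (δ : ℝ) (q : ℕ) : ℂ := Complex.log (1 + (q : ℂ) ^ cc δ)

theorem a_small (δ : ℝ) (hδ : 0 ≤ δ) (q : ℕ) (hq : 0 < q) : ‖(q : ℂ) ^ cc δ‖ ≤ 1 / q := by
  rw [a_norm δ q hq]
  have hq1 : (1 : ℝ) ≤ q := by exact_mod_cast hq
  rw [one_div, ← Real.rpow_neg_one]
  exact Real.rpow_le_rpow_of_exponent_le hq1 (by linarith)

theorem w_close (δ : ℝ) (hδ : 0 ≤ δ) (q : ℕ) (hq : 200 ≤ q) :
    ‖w δ q - (q : ℂ) ^ cc δ‖ ≤ ‖(q : ℂ) ^ cc δ‖ / 300 := by
  have h1 := a_small δ hδ q (by omega)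
  have hq1 : (200 : ℝ) ≤ q := by exact_mod_cast hq
  have h2 : ‖(q : ℂ) ^ cc δ‖ ≤ 1 / 200 := h1.trans (by
    apply one_div_le_one_div_of_le (by norm_num) hq1)
  have h3 := Complex.norm_log_one_add_sub_self_le (z := (q : ℂ) ^ cc δ) (by linarith)
  unfold w
  refine h3.trans ?_
  have ha : 0 ≤ ‖(q : ℂ) ^ cc δ‖ := norm_nonneg _
  generalize ‖(q : ℂ) ^ cc δ‖ = a at *
  have h4 : (1 - a)⁻¹ ≤ 200 / 199 := by
    rw [inv_le_comm₀ (by linarith) (by norm_num)]
    norm_num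
    linarith
  have h5 : a ^ 2 ≤ a * (1 / 200) := by nlinarith
  calc a ^ 2 * (1 - a)⁻¹ / 2 ≤ (a * (1 / 200)) * (200 / 199) / 2 := by
        apply div_le_div_of_nonneg_right _ (by norm_num)
        apply mul_le_mul h5 h4 (inv_nonneg.mpr (by linarith)) (by positivity)
    _ ≤ a / 300 := by nlinarith

/-- the block ratio -/
def L : ℕ := 8 ^ 16

/-- mass bound -/
def mm (δ : ℝ) (x : ℕ) : ℝ := ((L * x : ℕ) : ℝ) ^ (-δ) / (9 * Real.log ((L * x : ℕ) : ℝ))

/-- term bound -/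
def tt (δ : ℝ) (x : ℕ) : ℝ := 2 * (x : ℝ) ^ (-(1 + δ))

theorem block_step (δ : ℝ) (hδ : 0 ≤ δ) (x : ℕ) (hx : 30000 ≤ x) (z : ℂ) :
    ∃ B' : Finset ℕ, (∀ q ∈ B', q.Prime ∧ x < q ∧ q ≤ L * x) ∧
      ‖z - ∑ q ∈ B', w δ q‖ ≤ max (‖z‖ - 3 / 8 * mm δ x) (‖z‖ / 2 + tt δ x) := by
  obtain ⟨j, hj, hdir⟩ := dir τ0 rfl x (by omega) (Complex.arg z)
  obtain ⟨y, hy⟩ : ∃ y, y = 8 ^ j * x := ⟨_, rfl⟩
  have hxy : x ≤ y := by rw [hy]; exact Nat.le_mul_of_pos_left _ (by positivity)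
  have hyL : 8 * y ≤ L * x := by
    rw [hy, L, ← mul_assoc, ← pow_succ']
    exact Nat.mul_le_mul_right _ (Nat.pow_le_pow_right (by norm_num) (by omega))
  have hcos := cos_ge
  have hx0 : (0 : ℝ) < x := by exact_mod_cast (by omega : 0 < x)
  have hmem : ∀ q ∈ (Finset.Ioc y (8 * y)).filter Nat.Prime, q.Prime ∧ x < q ∧ q ≤ L * x := by
    intro q hq
    rw [Finset.mem_filter, Finset.mem_Ioc] at hq
    exact ⟨hq.2, by omega, by omega⟩
  have hbd : ∀ q ∈ (Finset.Ioc y (8 * y)).filter Nat.Prime,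
      ‖w δ q - (q : ℂ) ^ cc δ‖ ≤ (q : ℝ) ^ (-(1 + δ)) / 300 := by
    intro q hq
    have := hmem q hq
    have h := w_close δ hδ q (by omega)
    rwa [a_norm δ q (by omega)] at h
  have hup : ∀ q ∈ (Finset.Ioc y (8 * y)).filter Nat.Prime,
      ‖w δ q‖ ≤ 301 / 300 * (q : ℝ) ^ (-(1 + δ)) := by
    intro q hq
    have h1 := hbd q hq
    have h2 := a_norm δ q (by have := hmem q hq; omega)
    have h3 := norm_sub_norm_le (w δ q) ((q : ℂ) ^ cc δ)
    rw [h2] at h3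
    linarith
  have hlo : ∀ q ∈ (Finset.Ioc y (8 * y)).filter Nat.Prime,
      299 / 300 * (q : ℝ) ^ (-(1 + δ)) ≤ ‖w δ q‖ := by
    intro q hq
    have h1 := hbd q hq
    have h2 := a_norm δ q (by have := hmem q hq; omega)
    have h3 := norm_sub_norm_le ((q : ℂ) ^ cc δ) (w δ q)
    rw [h2, norm_sub_rev] at h3
    linarith
  obtain ⟨B', hB', hle⟩ := step ((Finset.Ioc y (8 * y)).filter Nat.Prime) (w δ) z
    (Complex.exp (Complex.arg z * Complex.I)) (tt δ x) (mm δ x)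
    (by rw [Complex.norm_exp_ofReal_mul_I]) (Complex.norm_mul_exp_arg_mul_I z).symm
    (by unfold tt; positivity)
    (by
      intro q hq
      have hq' := hmem q hq
      have hqp : 0 < q := by omega
      have h1 := hdir q (by rw [Finset.mem_filter, Finset.mem_Ioc, hy] at hq; exact hq.1.1)
        (by
          rw [Finset.mem_filter, Finset.mem_Ioc, hy] at hq
          rw [pow_succ', mul_assoc]; exact hq.1.2)
      have h2 := a_dir δ q hqp (Complex.arg z)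
      have hqr : 0 < (q : ℝ) ^ (-(1 + δ)) := Real.rpow_pos_of_pos (by exact_mod_cast hqp) _
      have h3 : (w δ q * (starRingEnd ℂ) (Complex.exp (Complex.arg z * Complex.I))).re =
          ((q : ℂ) ^ cc δ * (starRingEnd ℂ) (Complex.exp (Complex.arg z * Complex.I))).re +
          ((w δ q - (q : ℂ) ^ cc δ) *
            (starRingEnd ℂ) (Complex.exp (Complex.arg z * Complex.I))).re := by
        rw [← Complex.add_re]; congr 1; ring
      have h4 : -((q : ℝ) ^ (-(1 + δ)) / 300) ≤ ((w δ q - (q : ℂ) ^ cc δ) *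
            (starRingEnd ℂ) (Complex.exp (Complex.arg z * Complex.I))).re := by
        have h5 := (abs_le.mp (Complex.abs_re_le_norm ((w δ q - (q : ℂ) ^ cc δ) *
            (starRingEnd ℂ) (Complex.exp (Complex.arg z * Complex.I))))).1
        rw [norm_mul, RCLike.norm_conj, Complex.norm_exp_ofReal_mul_I, mul_one] at h5
        have := hbd q hq
        linarith
      rw [h3, h2]
      have h6 := hup q hq
      have h7 : (q : ℝ) ^ (-(1 + δ)) * 0.9 ≤
          (q : ℝ) ^ (-(1 + δ)) * Real.cos (τ0 * Real.log q - Complex.arg z) :=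
        mul_le_mul_of_nonneg_left (hcos.trans h1) hqr.le
      linarith)
    (by
      intro q hq
      have hq' := hmem q hq
      have h6 := hup q hq
      have h7 : (q : ℝ) ^ (-(1 + δ)) ≤ (x : ℝ) ^ (-(1 + δ)) :=
        Real.rpow_le_rpow_of_nonpos hx0 (by exact_mod_cast hq'.2.1.le) (by linarith)
      have h8 : 0 < (q : ℝ) ^ (-(1 + δ)) :=
        Real.rpow_pos_of_pos (by exact_mod_cast (by omega : 0 < q)) _
      unfold tt
      linarith)
    (by
      have h1 := prime_mass y (by omega) δ hδ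
      have h2 : 299 / 300 * ∑ q ∈ (Finset.Ioc y (8 * y)).filter Nat.Prime, (q : ℝ) ^ (-(1 + δ)) ≤
          ∑ q ∈ (Finset.Ioc y (8 * y)).filter Nat.Prime, ‖w δ q‖ := by
        rw [Finset.mul_sum]
        exact Finset.sum_le_sum hlo
      have hyr : (1 : ℝ) < ((8 * y : ℕ) : ℝ) := by exact_mod_cast (by omega : 1 < 8 * y)
      have hyL' : ((8 * y : ℕ) : ℝ) ≤ ((L * x : ℕ) : ℝ) := by exact_mod_cast hyL
      have hlog1 : 0 < Real.log ((8 * y : ℕ) : ℝ) := Real.log_pos hyr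
      have hlog2 : Real.log ((8 * y : ℕ) : ℝ) ≤ Real.log ((L * x : ℕ) : ℝ) :=
        Real.log_le_log (by linarith) hyL'
      have h3 : ((L * x : ℕ) : ℝ) ^ (-δ) ≤ ((8 * y : ℕ) : ℝ) ^ (-δ) :=
        Real.rpow_le_rpow_of_nonpos (by linarith) hyL' (by linarith)
      have h4 : 0 < ((L * x : ℕ) : ℝ) ^ (-δ) := Real.rpow_pos_of_pos (by linarith) _
      have h5 : ((L * x : ℕ) : ℝ) ^ (-δ) / (8 * Real.log ((L * x : ℕ) : ℝ)) ≤
          ((8 * y : ℕ) : ℝ) ^ (-δ) / (8 * Real.log ((8 * y : ℕ) : ℝ)) := by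
        apply div_le_div₀ (h4.le.trans h3) h3 (by positivity)
        linarith
      have h6 : mm δ x ≤ 299 / 300 * (((L * x : ℕ) : ℝ) ^ (-δ) / (8 * Real.log ((L * x : ℕ) : ℝ))) := by
        unfold mm
        have hl : 0 < Real.log ((L * x : ℕ) : ℝ) := by linarith
        have e1 : ((L * x : ℕ) : ℝ) ^ (-δ) / (9 * Real.log ((L * x : ℕ) : ℝ)) =
            (1 / 9) * (((L * x : ℕ) : ℝ) ^ (-δ) / Real.log ((L * x : ℕ) : ℝ)) := by
          field_simp
        have e2 : ((L * x : ℕ) : ℝ) ^ (-δ) / (8 * Real.log ((L * x : ℕ) : ℝ)) =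
            (1 / 8) * (((L * x : ℕ) : ℝ) ^ (-δ) / Real.log ((L * x : ℕ) : ℝ)) := by
          field_simp
        have h7 : 0 < ((L * x : ℕ) : ℝ) ^ (-δ) / Real.log ((L * x : ℕ) : ℝ) := by positivity
        rw [e1, e2]
        nlinarith
      linarith)
  exact ⟨B', fun q hq => hmem q (hB' hq), hle⟩

end Pool.Agent.X185.SG
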