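import Pool.Agent.X185.SG.Block
set_option autoImplicit false
set_option linter.all false

open Filter Topology

noncomputable section

namespace Pool.Agent.X185.SG

theorem L_val : (L : ℝ) = 281474976710656 := by
  unfold L; norm_num

theorem L_pos : 0 < L := by unfold L; positivity

theorem logL_pos : 0 < Real.log (L : ℝ) := by
  apply Real.log_pos; rw [L_val]; norm_num

theorem big_ineq (x : ℕ) (hx : L ^ 2 ≤ x) : 576 * Real.log ((L * x : ℕ) : ℝ) ≤ x := by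
  have hLr := L_val
  have hxr : (L : ℝ) ^ 2 ≤ x := by exact_mod_cast hx
  have hL0 : (0 : ℝ) < L := by rw [hLr]; norm_num
  have hx0 : (0 : ℝ) < x := lt_of_lt_of_le (by positivity) hxr
  have h1 : Real.log ((L * x : ℕ) : ℝ) ≤ 3 / 2 * Real.log x := by
    push_cast
    rw [Real.log_mul hL0.ne' hx0.ne']
    have h2 : Real.log ((L : ℝ) ^ 2) ≤ Real.log x := Real.log_le_log (by positivity) hxr
    rw [Real.log_pow] at h2
    push_cast at h2
    linarith
  obtain ⟨s, hs⟩ : ∃ s, s = Real.sqrt x := ⟨_, rfl⟩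
  have hs2 : s ^ 2 = x := by rw [hs, Real.sq_sqrt hx0.le]
  have hs0 : 0 < s := by rw [hs]; exact Real.sqrt_pos.mpr hx0
  have h3 : Real.log x ≤ 2 * s := by
    rw [← hs2, Real.log_pow]
    have := Real.log_le_sub_one_of_pos hs0
    push_cast
    linarith
  have h4 : 2000 ≤ s := by
    by_contra hcon
    push Not at hcon
    have h5 : s ^ 2 < 2000 ^ 2 := pow_lt_pow_left₀ hcon hs0.le (by norm_num)
    rw [hs2] at h5
    have h6 : (2000 : ℝ) ^ 2 ≤ (L : ℝ) ^ 2 := by rw [hLr]; norm_num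
    linarith
  have h5 : (x : ℝ) = s * s := by rw [← hs2]; ring
  nlinarith

theorem mm_pos (δ : ℝ) (x : ℕ) (hx : 1 ≤ x) : 0 < mm δ x := by
  unfold mm
  have h1 : (1 : ℝ) < ((L * x : ℕ) : ℝ) := by
    have : 1 < L * x := by
      have : 1 < L := by unfold L; norm_num
      nlinarith
    exact_mod_cast this
  have := Real.log_pos h1
  have := Real.rpow_pos_of_pos (show 0 < ((L * x : ℕ) : ℝ) by linarith) (-δ)
  positivity

theorem tt_le (δ : ℝ) (x : ℕ) (hx : L ^ 2 ≤ x) (hLδ : 5 / 6 ≤ (L : ℝ) ^ (-δ)) :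
    tt δ x ≤ mm δ x / 16 := by
  have h1 := big_ineq x hx
  have hLr := L_val
  have hL0 : (0 : ℝ) < L := by rw [hLr]; norm_num
  have hxr : (L : ℝ) ^ 2 ≤ x := by exact_mod_cast hx
  have hx0 : (0 : ℝ) < x := lt_of_lt_of_le (by positivity) hxr
  have hlog : 0 < Real.log ((L * x : ℕ) : ℝ) := by
    apply Real.log_pos
    push_cast
    rw [hLr] at hxr ⊢
    nlinarith
  unfold tt mm
  have e1 : ((L * x : ℕ) : ℝ) ^ (-δ) = (L : ℝ) ^ (-δ) * (x : ℝ) ^ (-δ) := by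
    push_cast; rw [Real.mul_rpow hL0.le hx0.le]
  have e2 : (x : ℝ) ^ (-(1 + δ)) = (x : ℝ) ^ (-δ) / x := by
    rw [neg_add, Real.rpow_add hx0, Real.rpow_neg_one, mul_comm, div_eq_mul_inv]
  have hxd : 0 < (x : ℝ) ^ (-δ) := Real.rpow_pos_of_pos hx0 _
  rw [e1, e2]
  generalize Real.log ((L * x : ℕ) : ℝ) = l at *
  generalize (x : ℝ) ^ (-δ) = d at *
  generalize (L : ℝ) ^ (-δ) = c at *
  rw [div_div, ← mul_div_assoc, div_le_div_iff₀ hx0 (by positivity)]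
  have h2 : 5 / 6 * d * (576 * l) ≤ c * d * x := by
    apply mul_le_mul (mul_le_mul_of_nonneg_right hLδ hxd.le) h1 (by positivity)
    have : 0 < c := by linarith
    positivity
  nlinarith [mul_pos hxd hlog]

theorem mm_succ (δ : ℝ) (x : ℕ) (hx : L ^ 2 ≤ x) (hLδ : 5 / 6 ≤ (L : ℝ) ^ (-δ)) :
    5 / 8 * mm δ x ≤ mm δ (L * x) := by
  have hLr := L_val
  have hL0 : (0 : ℝ) < L := by rw [hLr]; norm_num
  have hxr : (L : ℝ) ^ 2 ≤ x := by exact_mod_cast hx
  have hx0 : (0 : ℝ) < x := lt_of_lt_of_le (by positivity) hxr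
  have hLx : (0 : ℝ) < ((L * x : ℕ) : ℝ) := by push_cast; positivity
  have hlL := logL_pos
  have h3 : 3 * Real.log (L : ℝ) ≤ Real.log ((L * x : ℕ) : ℝ) := by
    have : (3 : ℝ) = ((3 : ℕ) : ℝ) := by norm_num
    rw [this, ← Real.log_pow]
    apply Real.log_le_log (by positivity)
    push_cast
    have : (L : ℝ) ^ 3 = L * L ^ 2 := by ring
    rw [this]
    exact mul_le_mul_of_nonneg_left hxr hL0.le
  unfold mm
  have e1 : ((L * (L * x) : ℕ) : ℝ) ^ (-δ) = (L : ℝ) ^ (-δ) * ((L * x : ℕ) : ℝ) ^ (-δ) := by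
    rw [Nat.cast_mul L (L * x), Real.mul_rpow hL0.le hLx.le]
  have e2 : Real.log ((L * (L * x) : ℕ) : ℝ) = Real.log (L : ℝ) + Real.log ((L * x : ℕ) : ℝ) := by
    rw [Nat.cast_mul L (L * x), Real.log_mul hL0.ne' hLx.ne']
  rw [e1, e2]
  have hd : 0 < ((L * x : ℕ) : ℝ) ^ (-δ) := Real.rpow_pos_of_pos hLx _
  generalize Real.log ((L * x : ℕ) : ℝ) = l at *
  generalize ((L * x : ℕ) : ℝ) ^ (-δ) = d at *
  generalize (L : ℝ) ^ (-δ) = c at *
  generalize Real.log (L : ℝ) = m at *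
  have hl : 0 < l := by linarith
  rw [← mul_div_assoc, div_le_div_iff₀ (by positivity) (by positivity)]
  have h5 : m + l ≤ 4 / 3 * l := by linarith
  have h6 : 5 / 8 * d * (9 * (m + l)) ≤ 5 / 8 * d * (9 * (4 / 3 * l)) := by
    apply mul_le_mul_of_nonneg_left _ (by positivity); linarith
  have h7 : 5 / 6 * (d * (9 * l)) ≤ c * (d * (9 * l)) := by
    apply mul_le_mul_of_nonneg_right hLδ (by positivity)
  linarith

theorem tt_tendsto (δ : ℝ) (hδ : 0 ≤ δ) (X : ℕ) (hX : 1 ≤ X) :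
    Tendsto (fun k : ℕ => tt δ (L ^ k * X)) atTop (𝓝 0) := by
  have hLr := L_val
  have h1 : Tendsto (fun k : ℕ => 2 * (1 / (L : ℝ)) ^ k) atTop (𝓝 (2 * 0)) := by
    apply Tendsto.const_mul
    apply tendsto_pow_atTop_nhds_zero_of_lt_one
    · rw [hLr]; norm_num
    · rw [hLr]; norm_num
  rw [mul_zero] at h1
  refine squeeze_zero (fun k => ?_) (fun k => ?_) h1
  · unfold tt; positivity
  · unfold tt
    apply mul_le_mul_of_nonneg_left _ (by norm_num)
    have hL1 : (1 : ℝ) ≤ (L : ℝ) ^ k := by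
      apply one_le_pow₀; rw [hLr]; norm_num
    have hX1 : (1 : ℝ) ≤ X := by exact_mod_cast hX
    have hx : (1 : ℝ) ≤ ((L ^ k * X : ℕ) : ℝ) := by push_cast; nlinarith
    calc ((L ^ k * X : ℕ) : ℝ) ^ (-(1 + δ)) ≤ ((L ^ k * X : ℕ) : ℝ) ^ (-(1 : ℝ)) :=
          Real.rpow_le_rpow_of_exponent_le hx (by linarith)
      _ = 1 / ((L ^ k * X : ℕ) : ℝ) := by rw [Real.rpow_neg_one, one_div]
      _ ≤ 1 / (L : ℝ) ^ k := by
          apply one_div_le_one_div_of_le (by linarith)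
          push_cast
          nlinarith
      _ = (1 / (L : ℝ)) ^ k := by rw [one_div_pow]

theorem approx (δ : ℝ) (hδ : 0 ≤ δ) (hLδ : 5 / 6 ≤ (L : ℝ) ^ (-δ)) (X : ℕ) (hX : L ^ 2 ≤ X)
    (z0 : ℂ) (hinit : ‖z0‖ ≤ 3 / 4 * mm δ X ∨
      ∃ K, 16 / 5 * ‖z0‖ ≤ ∑ k ∈ Finset.range K, mm δ (L ^ k * X)) (ε : ℝ) (hε : 0 < ε) :
    ∃ S : Finset ℕ, (∀ q ∈ S, q.Prime ∧ X < q) ∧ ‖z0 - ∑ q ∈ S, w δ q‖ < ε := by
  have hL1 : 1 ≤ L := L_pos
  have hL2 : 30000 ≤ L ^ 2 := by unfold L; norm_num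
  have hxk : ∀ k, X ≤ L ^ k * X := fun k => Nat.le_mul_of_pos_left _ (pow_pos L_pos k)
  have hstep : ∀ (k : ℕ) (S : Finset ℕ), (∀ q ∈ S, q.Prime ∧ X < q ∧ q ≤ L ^ k * X) →
      ∃ S' : Finset ℕ, (∀ q ∈ S', q.Prime ∧ X < q ∧ q ≤ L ^ (k + 1) * X) ∧
        ‖z0 - ∑ q ∈ S', w δ q‖ ≤ max (‖z0 - ∑ q ∈ S, w δ q‖ - 3 / 8 * mm δ (L ^ k * X))
          (‖z0 - ∑ q ∈ S, w δ q‖ / 2 + tt δ (L ^ k * X)) := by
    intro k S hS
    obtain ⟨B', hB1, hB2⟩ := block_step δ hδ (L ^ k * X) (by have := hxk k; omega)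
      (z0 - ∑ q ∈ S, w δ q)
    have e : L ^ (k + 1) * X = L * (L ^ k * X) := by rw [pow_succ]; ring
    have hle : L ^ k * X ≤ L * (L ^ k * X) := Nat.le_mul_of_pos_left _ L_pos
    refine ⟨S ∪ B', ?_, ?_⟩
    · intro q hq
      rw [Finset.mem_union] at hq
      rw [e]
      rcases hq with hq | hq
      · have := hS q hq
        exact ⟨this.1, this.2.1, this.2.2.trans hle⟩
      · have := hB1 q hq
        exact ⟨this.1, lt_of_le_of_lt (hxk k) this.2.1, this.2.2⟩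
    · rw [Finset.sum_union]
      · rw [sub_sub] at hB2
        exact hB2
      · rw [Finset.disjoint_left]
        intro q h1 h2
        have := hS q h1
        have := hB1 q h2
        omega
  choose! g hg1 hg2 using hstep
  obtain ⟨S, hS⟩ : ∃ S : ℕ → Finset ℕ, S = fun k => Nat.rec ∅ (fun k s => g k s) k := ⟨_, rfl⟩
  have hS0 : S 0 = ∅ := by subst hS; rfl
  have hSs : ∀ k, S (k + 1) = g k (S k) := by intro k; subst hS; rfl
  have hSP : ∀ k, ∀ q ∈ S k, q.Prime ∧ X < q ∧ q ≤ L ^ k * X := by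
    intro k
    induction k with
    | zero => rw [hS0]; simp
    | succ k ih => rw [hSs]; exact hg1 k (S k) ih
  obtain ⟨k, hk⟩ := rec_small (fun k => mm δ (L ^ k * X)) (fun k => tt δ (L ^ k * X))
    (fun k => ‖z0 - ∑ q ∈ S k, w δ q‖)
    (fun k => mm_pos δ _ (by have := hxk k; omega))
    (fun k => by unfold tt; positivity)
    (fun k => tt_le δ _ (hX.trans (hxk k)) hLδ)
    (fun k => by
      have h := mm_succ δ (L ^ k * X) (hX.trans (hxk k)) hLδ
      have e : L ^ (k + 1) * X = L * (L ^ k * X) := by rw [pow_succ]; ring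
      simp only [e]
      exact h)
    (tt_tendsto δ hδ X (by omega)) (fun k => norm_nonneg _)
    (fun k => by
      have := hg2 k (S k) (hSP k)
      rw [← hSs] at this
      exact this)
    (by simpa [hS0] using hinit) ε hε
  exact ⟨S k, fun q hq => ⟨(hSP k q hq).1, (hSP k q hq).2.1⟩, hk⟩

end Pool.Agent.X185.SG
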