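import Mathlib
set_option autoImplicit false
set_option linter.all false

open Filter Topology

noncomputable section

namespace Pool.Agent.X185.SG

/-- choose a subfamily with total mass just above the target, or take everything -/
theorem pick {ι : Type*} [DecidableEq ι] (B : Finset ι) (w : ι → ℝ) (t R : ℝ) (hR : 0 ≤ R)
    (hw : ∀ i ∈ B, w i ≤ t) :
    (∑ i ∈ B, w i) ≤ R ∨ ∃ B' ⊆ B, R ≤ ∑ i ∈ B', w i ∧ ∑ i ∈ B', w i ≤ R + t := by
  induction B using Finset.induction_on with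
  | empty => left; simpa using hR
  | insert a B ha ih =>
    rcases ih (fun i hi => hw i (Finset.mem_insert_of_mem hi)) with h | ⟨B', hB', h1, h2⟩
    · have h3 := hw a (Finset.mem_insert_self _ _)
      rcases le_total (∑ i ∈ insert a B, w i) R with h4 | h4
      · exact Or.inl h4
      · right
        refine ⟨insert a B, le_refl _, h4, ?_⟩
        rw [Finset.sum_insert ha]; linarith
    · exact Or.inr ⟨B', hB'.trans (Finset.subset_insert _ _), h1, h2⟩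

theorem dist_est (z u W : ℂ) (s : ℝ) (hu : ‖u‖ = 1) (hz : z = (‖z‖ : ℂ) * u) (hs : 0 ≤ s)
    (h1 : 7 / 8 * s ≤ (W * (starRingEnd ℂ) u).re) (h2 : ‖W‖ ≤ s) :
    ‖z - W‖ ^ 2 ≤ ‖z‖ ^ 2 - 7 / 4 * (‖z‖ * s) + s ^ 2 := by
  have e : ‖z - W‖ ^ 2 = ‖z‖ ^ 2 - 2 * (‖z‖ * (W * (starRingEnd ℂ) u).re) + ‖W‖ ^ 2 := by
    have e1 : (‖z‖ * (W * (starRingEnd ℂ) u).re) = (W * (starRingEnd ℂ) z).re := by
      conv_rhs => rw [hz]
      rw [map_mul, Complex.conj_ofReal]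
      have : W * ((‖z‖ : ℂ) * (starRingEnd ℂ) u) = (‖z‖ : ℂ) * (W * (starRingEnd ℂ) u) := by ring
      rw [this, Complex.re_ofReal_mul]
    rw [e1]
    simp only [← Complex.normSq_eq_norm_sq, Complex.normSq_apply, Complex.sub_re, Complex.sub_im,
      Complex.mul_re, Complex.conj_re, Complex.conj_im]
    ring
  rw [e]
  have h3 : ‖W‖ ^ 2 ≤ s ^ 2 := pow_le_pow_left₀ (norm_nonneg _) h2 2
  have h4 : ‖z‖ * (7 / 8 * s) ≤ ‖z‖ * (W * (starRingEnd ℂ) u).re :=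
    mul_le_mul_of_nonneg_left h1 (norm_nonneg _)
  nlinarith

theorem step {ι : Type*} [DecidableEq ι] (B : Finset ι) (w : ι → ℂ) (z u : ℂ) (t M : ℝ)
    (hu : ‖u‖ = 1) (hz : z = (‖z‖ : ℂ) * u) (ht : 0 ≤ t)
    (h1 : ∀ i ∈ B, 7 / 8 * ‖w i‖ ≤ (w i * (starRingEnd ℂ) u).re) (h2 : ∀ i ∈ B, ‖w i‖ ≤ t)
    (hM : M ≤ ∑ i ∈ B, ‖w i‖) :
    ∃ B' ⊆ B, ‖z - ∑ i ∈ B', w i‖ ≤ max (‖z‖ - 3 / 8 * M) (‖z‖ / 2 + t) := by
  have hsum : ∀ B' ⊆ B, 7 / 8 * (∑ i ∈ B', ‖w i‖) ≤ ((∑ i ∈ B', w i) * (starRingEnd ℂ) u).re ∧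
      ‖∑ i ∈ B', w i‖ ≤ ∑ i ∈ B', ‖w i‖ := by
    intro B' hB'
    refine ⟨?_, norm_sum_le _ _⟩
    rw [Finset.mul_sum, Finset.sum_mul, Complex.re_sum]
    exact Finset.sum_le_sum fun i hi => h1 i (hB' hi)
  rcases pick B (fun i => ‖w i‖) t ‖z‖ (norm_nonneg _) h2 with h | ⟨B', hB', h3, h4⟩
  · refine ⟨B, le_refl _, le_max_of_le_left ?_⟩
    obtain ⟨ha, hb⟩ := hsum B (le_refl _)
    have hs : 0 ≤ ∑ i ∈ B, ‖w i‖ := Finset.sum_nonneg fun _ _ => norm_nonneg _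
    have h5 := dist_est z u _ _ hu hz hs ha hb
    generalize (∑ i ∈ B, ‖w i‖) = s at *
    have h6 : ‖z - ∑ i ∈ B, w i‖ ^ 2 ≤ (‖z‖ - 3 / 8 * s) ^ 2 := by
      nlinarith [norm_nonneg z]
    have h7 : 0 ≤ ‖z‖ - 3 / 8 * s := by linarith
    have h8 := abs_le_of_sq_le_sq h6 h7
    have h9 := (le_abs_self _).trans h8
    linarith
  · refine ⟨B', hB', le_max_of_le_right ?_⟩
    obtain ⟨ha, hb⟩ := hsum B' hB'
    have hs : 0 ≤ ∑ i ∈ B', ‖w i‖ := Finset.sum_nonneg fun _ _ => norm_nonneg _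
    have h5 := dist_est z u _ _ hu hz hs ha hb
    generalize (∑ i ∈ B', ‖w i‖) = s at *
    have h6 : ‖z - ∑ i ∈ B', w i‖ ^ 2 ≤ (‖z‖ / 2 + t) ^ 2 := by
      nlinarith [norm_nonneg z]
    have h7 : 0 ≤ ‖z‖ / 2 + t := by positivity
    exact (le_abs_self _).trans (abs_le_of_sq_le_sq h6 h7)

/-- the real recursion -/
theorem rec_small (m t r : ℕ → ℝ) (hm : ∀ k, 0 < m k) (ht0 : ∀ k, 0 ≤ t k) (ht : ∀ k, t k ≤ m k / 16)
    (hm2 : ∀ k, 5 / 8 * m k ≤ m (k + 1)) (htl : Tendsto t atTop (𝓝 0)) (hr : ∀ k, 0 ≤ r k)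
    (hrec : ∀ k, r (k + 1) ≤ max (r k - 3 / 8 * m k) (r k / 2 + t k))
    (hinit : r 0 ≤ 3 / 4 * m 0 ∨ ∃ K, 16 / 5 * r 0 ≤ ∑ k ∈ Finset.range K, m k)
    (ε : ℝ) (hε : 0 < ε) : ∃ k, r k < ε := by
  have hlock : ∀ k, r k ≤ 3 / 4 * m k → r (k + 1) ≤ r k / 2 + t k ∧
      r (k + 1) ≤ 3 / 4 * m (k + 1) := by
    intro k hk
    have h1 : r (k + 1) ≤ r k / 2 + t k := by
      have := ht0 k
      exact (hrec k).trans (max_le (by linarith) (le_refl _))
    refine ⟨h1, ?_⟩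
    have h2 := hm2 k
    have h3 := ht k
    have h4 := hm k
    linarith
  obtain ⟨k0, hk0⟩ : ∃ k, r k ≤ 3 / 4 * m k := by
    by_contra hcon
    push Not at hcon
    rcases hinit with h | ⟨K, hK⟩
    · exact absurd h (not_le.mpr (hcon 0))
    · have hdec : ∀ k, r (k + 1) ≤ r k - 5 / 16 * m k := by
        intro k
        refine (hrec k).trans (max_le ?_ ?_)
        · linarith [hm k]
        · have := hcon k
          have := ht k
          linarith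
      have hind : ∀ K, r K ≤ r 0 - 5 / 16 * ∑ k ∈ Finset.range K, m k := by
        intro K
        induction K with
        | zero => simp
        | succ K ih => rw [Finset.sum_range_succ]; linarith [hdec K]
      have h1 := hind K
      have h2 := hcon K
      have h3 := hm K
      linarith
  have hall : ∀ j, r (k0 + j) ≤ 3 / 4 * m (k0 + j) := by
    intro j
    induction j with
    | zero => simpa using hk0
    | succ j ih => exact (hlock _ ih).2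
  obtain ⟨N, hN⟩ := eventually_atTop.mp (htl.eventually (gt_mem_nhds (show (0 : ℝ) < ε / 4 by linarith)))
  obtain ⟨k1, hk1⟩ : ∃ k1, k1 = k0 + N := ⟨_, rfl⟩
  have hrec2 : ∀ j, r (k1 + j) ≤ ε / 2 + (1 / 2) ^ j * r k1 := by
    intro j
    induction j with
    | zero => simp; linarith
    | succ j ih =>
      have h1 := (hlock (k1 + j) (by rw [hk1, add_assoc]; exact hall (N + j))).1
      have h2 := hN (k1 + j) (by omega)
      rw [pow_succ]
      have e : k1 + (j + 1) = k1 + j + 1 := by ring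
      rw [e]
      linarith
  obtain ⟨j, hj⟩ : ∃ j : ℕ, (1 / 2 : ℝ) ^ j * r k1 < ε / 2 := by
    have h1 : Tendsto (fun j : ℕ => (1 / 2 : ℝ) ^ j * r k1) atTop (𝓝 (0 * r k1)) :=
      (tendsto_pow_atTop_nhds_zero_of_lt_one (by norm_num) (by norm_num)).mul_const _
    rw [zero_mul] at h1
    exact (h1.eventually (gt_mem_nhds (show (0 : ℝ) < ε / 2 by linarith))).exists
  exact ⟨k1 + j, by linarith [hrec2 j]⟩

end Pool.Agent.X185.SG
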