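import Pool.Agent.X185.SG.Arith
set_option autoImplicit false
set_option linter.all false

open Filter Topology

noncomputable section

namespace Pool.Agent.X185.SG

theorem term_summable (c : ℂ) (hc : c.re < -1) : Summable (fun n : ℕ => ‖(n : ℂ) ^ c‖) := by
  have h1 : Summable (fun n : ℕ => (n : ℝ) ^ c.re) := Real.summable_nat_rpow.mpr hc
  have h2 : Summable (fun n : ℕ => ‖((n + 1 : ℕ) : ℂ) ^ c‖) := by
    have h3 := (summable_nat_add_iff 1).mpr h1
    refine h3.congr fun n => ?_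
    rw [Complex.norm_natCast_cpow_of_pos (Nat.succ_pos n)]
  exact (summable_nat_add_iff 1).mp h2

theorem sig_bound (c : ℂ) (hc : c.re < -1) : ∃ C : ℝ, 0 < C ∧ ∀ n, ‖sigmaC c n‖ ≤ C := by
  have h := term_summable c hc
  refine ⟨∑' n : ℕ, ‖(n : ℂ) ^ c‖ + 1, ?_, ?_⟩
  · have : 0 ≤ ∑' n : ℕ, ‖(n : ℂ) ^ c‖ := tsum_nonneg fun _ => norm_nonneg _
    linarith
  · intro n
    unfold sigmaC
    refine (norm_sum_le _ _).trans ?_
    have := h.sum_le_tsum n.divisors (fun _ _ => norm_nonneg _)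
    linarith

theorem sig_tail (c : ℂ) (hc : c.re < -1) (ε : ℝ) (hε : 0 < ε) :
    ∃ N : ℕ, ∀ n : ℕ, 0 < n → (∀ q : ℕ, q.Prime → q ∣ n → N < q) → ‖sigmaC c n - 1‖ < ε := by
  obtain ⟨s, hs⟩ := (summable_iff_vanishing_norm.mp (term_summable c hc)) ε hε
  refine ⟨s.sup id, fun n hn hq => ?_⟩
  have h1 : sigmaC c n - 1 = ∑ d ∈ n.divisors.erase 1, (d : ℂ) ^ c := by
    unfold sigmaC
    rw [← Finset.add_sum_erase _ _ (Nat.one_mem_divisors.mpr hn.ne')]
    simp
  rw [h1]
  refine lt_of_le_of_lt (norm_sum_le _ _) ?_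
  have h2 := hs (n.divisors.erase 1) (by
    rw [Finset.disjoint_left]
    intro d hd hds
    rw [Finset.mem_erase, Nat.mem_divisors] at hd
    have h3 : d ≤ s.sup id := Finset.le_sup (f := id) hds
    have h4 := hq d.minFac (Nat.minFac_prime hd.1) ((Nat.minFac_dvd d).trans hd.2.1)
    have h5 : d.minFac ≤ d := Nat.minFac_le (Nat.pos_of_dvd_of_pos hd.2.1 hn)
    omega)
  exact lt_of_le_of_lt (le_abs_self _) h2

theorem conn (c : ℂ) (hc : c.re < -1)
    (H : ∀ p : ℕ, p.Prime → ∀ k : ℕ, ∀ ε : ℝ, 0 < ε → ∃ n : ℕ, 0 < n ∧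
      (∀ q : ℕ, q.Prime → q ∣ n → p < q) ∧
      ‖sigmaC c n * sigmaC c (p ^ k) - sigmaC c (p ^ (k + 1))‖ < ε) :
    IsConnected (closure (sigmaC c '' {n | 0 < n})) := by
  obtain ⟨C, hC0, hC⟩ := sig_bound c hc
  set A : Set ℂ := sigmaC c '' {n | 0 < n} with hA
  have hne : A.Nonempty := ⟨sigmaC c 1, 1, Nat.one_pos, rfl⟩
  refine ⟨hne.closure, ?_⟩
  have hbd : Bornology.IsBounded A := by
    rw [isBounded_iff_forall_norm_le]
    refine ⟨C, ?_⟩
    rintro x ⟨n, -, rfl⟩
    exact hC n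
  have hcomp : IsCompact (closure A) := Metric.isCompact_of_isClosed_isBounded isClosed_closure
    hbd.closure
  rw [isPreconnected_closed_iff]
  intro U V hU hV hUV hTU hTV
  by_contra hcon
  rw [Set.not_nonempty_iff_eq_empty] at hcon
  have hdisj : Disjoint (closure A ∩ U) (closure A ∩ V) := by
    rw [Set.disjoint_left]
    rintro x ⟨h1, h2⟩ ⟨_, h3⟩
    have : x ∈ closure A ∩ (U ∩ V) := ⟨h1, h2, h3⟩
    rw [hcon] at this
    exact this
  obtain ⟨r, hr, hrd⟩ := Metric.exists_pos_forall_lt_edist (hcomp.inter_right hU)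
    (isClosed_closure.inter hV) hdisj
  have hkey : ∀ x ∈ A, ∀ y ∈ A, dist x y ≤ r → (x ∈ U → y ∈ U) := by
    intro x hx y hy hd hxU
    by_contra hyU
    have hyV : y ∈ V := (hUV (subset_closure hy)).resolve_left hyU
    have h1 := hrd x ⟨subset_closure hx, hxU⟩ y ⟨subset_closure hy, hyV⟩
    rw [edist_dist] at h1
    have h2 : ENNReal.ofReal (dist x y) ≤ (r : ENNReal) := by
      rw [← ENNReal.ofReal_coe_nnreal]
      exact ENNReal.ofReal_le_ofReal hd
    exact absurd h1 (not_lt.mpr h2)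
  have hkey2 : ∀ m n : ℕ, 0 < m → 0 < n → ‖sigmaC c m - sigmaC c n‖ ≤ r →
      (sigmaC c m ∈ U ↔ sigmaC c n ∈ U) := by
    intro m n hm hn hd
    constructor
    · exact hkey _ ⟨m, hm, rfl⟩ _ ⟨n, hn, rfl⟩ (by rwa [dist_eq_norm])
    · exact hkey _ ⟨n, hn, rfl⟩ _ ⟨m, hm, rfl⟩ (by rwa [dist_comm, dist_eq_norm])
  have hr' : (0 : ℝ) < r := by exact_mod_cast hr
  obtain ⟨N0, hN0⟩ := sig_tail c hc (r / C) (by positivity)
  obtain ⟨P, hP⟩ : ∃ P : ℕ → Prop, P = fun N => ∀ m : ℕ, 0 < m →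
      (∀ q : ℕ, q.Prime → q ∣ m → q ≤ N) → ∀ n : ℕ, 0 < n → (∀ q : ℕ, q.Prime → q ∣ n → N < q) →
      (sigmaC c (m * n) ∈ U ↔ sigmaC c m ∈ U) := ⟨_, rfl⟩
  have hcop : ∀ N m n : ℕ, (∀ q : ℕ, q.Prime → q ∣ m → q ≤ N) →
      (∀ q : ℕ, q.Prime → q ∣ n → N < q) → Nat.Coprime m n := by
    intro N m n hm hn
    apply Nat.Coprime.symm
    by_contra h
    obtain ⟨q, hq, h1, h2⟩ := Nat.Prime.not_coprime_iff_dvd.mp h
    have := hm q hq h2
    have := hn q hq h1
    omega
  have hbase : P N0 := by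
    rw [hP]
    intro m hm hms n hn hns
    apply hkey2 _ _ (Nat.mul_pos hm hn) hm
    rw [sigmaC_mul c m n (hcop N0 m n hms hns)]
    have e : sigmaC c m * sigmaC c n - sigmaC c m = sigmaC c m * (sigmaC c n - 1) := by ring
    rw [e, norm_mul]
    calc ‖sigmaC c m‖ * ‖sigmaC c n - 1‖ ≤ C * (r / C) :=
          mul_le_mul (hC m) (hN0 n hn hns).le (norm_nonneg _) hC0.le
      _ = r := by field_simp
  have hstep : ∀ N, P (N + 1) → P N := by
    intro N hPN
    rw [hP] at hPN ⊢
    intro m hm hms n hn hns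
    have hms' : ∀ q : ℕ, q.Prime → q ∣ m → q ≤ N + 1 := fun q hq h => (hms q hq h).trans (Nat.le_succ _)
    by_cases hp : (N + 1).Prime
    · obtain ⟨p, hpN⟩ : ∃ p, p = N + 1 := ⟨_, rfl⟩
      rw [← hpN] at hp hPN hms'
      obtain ⟨k, n', hn', hnk⟩ := Nat.exists_eq_pow_mul_and_not_dvd hn.ne' p hp.ne_one
      have hpk : ∀ k, 0 < p ^ k := fun k => pow_pos hp.pos k
      have hcopk : ∀ k, Nat.Coprime m (p ^ k) := by
        intro k
        apply Nat.Coprime.pow_right
        apply Nat.Coprime.symm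
        rw [Nat.Prime.coprime_iff_not_dvd hp]
        intro h
        have := hms p hp h
        omega
      have hsm : ∀ k, ∀ q : ℕ, q.Prime → q ∣ m * p ^ k → q ≤ p := by
        intro k q hq h
        rcases (Nat.Prime.dvd_mul hq).mp h with h | h
        · exact hms' q hq h
        · have := (Nat.prime_dvd_prime_iff_eq hq hp).mp (hq.dvd_of_dvd_pow h)
          omega
      have hk : ∀ k, (sigmaC c (m * p ^ k) ∈ U ↔ sigmaC c m ∈ U) := by
        intro k
        induction k with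
        | zero => simp
        | succ k ih =>
          obtain ⟨n2, hn2, hn2q, hn2d⟩ := H p hp k (r / C) (by positivity)
          have h1 := hPN (m * p ^ k) (Nat.mul_pos hm (hpk k)) (hsm k) n2 hn2 hn2q
          rw [← ih, ← h1]
          apply hkey2 _ _ (Nat.mul_pos hm (hpk _)) (Nat.mul_pos (Nat.mul_pos hm (hpk _)) hn2)
          rw [sigmaC_mul c _ n2 (hcop p _ _ (hsm k) hn2q), sigmaC_mul c m _ (hcopk k),
            sigmaC_mul c m _ (hcopk (k + 1)), norm_sub_rev]
          have e : sigmaC c m * sigmaC c (p ^ k) * sigmaC c n2 -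
              sigmaC c m * sigmaC c (p ^ (k + 1)) = sigmaC c m *
              (sigmaC c n2 * sigmaC c (p ^ k) - sigmaC c (p ^ (k + 1))) := by ring
          rw [e, norm_mul]
          calc ‖sigmaC c m‖ * ‖sigmaC c n2 * sigmaC c (p ^ k) - sigmaC c (p ^ (k + 1))‖
              ≤ C * (r / C) := mul_le_mul (hC m) hn2d.le (norm_nonneg _) hC0.le
            _ = r := by field_simp
      have hn'0 : 0 < n' := by
        rcases Nat.eq_zero_or_pos n' with h | h
        · rw [h] at hn'; simp at hn'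
        · exact h
      have hn'q : ∀ q : ℕ, q.Prime → q ∣ n' → p < q := by
        intro q hq h
        have h1 := hns q hq (by rw [hnk]; exact h.mul_left _)
        have h2 : q ≠ p := by rintro rfl; exact hn' h
        omega
      have h3 := hPN (m * p ^ k) (Nat.mul_pos hm (hpk k)) (hsm k) n' hn'0 hn'q
      rw [hk k] at h3
      rw [hnk, ← mul_assoc]
      exact h3
    · apply hPN m hm hms' n hn
      intro q hq h
      have h1 := hns q hq h
      have h2 : q ≠ N + 1 := by rintro rfl; exact hp hq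
      omega
  have hall : ∀ j, P (N0 - j) := by
    intro j
    induction j with
    | zero => simpa using hbase
    | succ j ih =>
      rcases Nat.eq_zero_or_pos (N0 - j) with h | h
      · have : N0 - (j + 1) = N0 - j := by omega
        rw [this]; exact ih
      · apply hstep
        have : N0 - (j + 1) + 1 = N0 - j := by omega
        rw [this]; exact ih
  have h0 := hall N0
  rw [Nat.sub_self, hP] at h0
  have hside : ∀ n : ℕ, 0 < n → (sigmaC c n ∈ U ↔ sigmaC c 1 ∈ U) := by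
    intro n hn
    have := h0 1 one_pos (fun q hq h => by
      have := Nat.Prime.one_lt hq
      have := Nat.le_of_dvd one_pos h
      omega) n hn (fun q hq _ => hq.pos)
    simpa using this
  by_cases h1 : sigmaC c 1 ∈ U
  · have hAU : A ⊆ U := by
      rintro x ⟨n, hn, rfl⟩
      exact (hside n hn).mpr h1
    have hTU' : closure A ⊆ U := closure_minimal hAU hU
    obtain ⟨x, hx1, hx2⟩ := hTV
    have : x ∈ closure A ∩ (U ∩ V) := ⟨hx1, hTU' hx1, hx2⟩
    rw [hcon] at this
    exact this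
  · have hAV : A ⊆ V := by
      rintro x ⟨n, hn, rfl⟩
      refine (hUV (subset_closure ⟨n, hn, rfl⟩)).resolve_left ?_
      intro h
      exact h1 ((hside n hn).mp h)
    have hTV' : closure A ⊆ V := closure_minimal hAV hV
    obtain ⟨x, hx1, hx2⟩ := hTU
    have : x ∈ closure A ∩ (U ∩ V) := ⟨hx1, hx2, hTV' hx1⟩
    rw [hcon] at this
    exact this

end Pool.Agent.X185.SG
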